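import Pool.Agent.Helper15.HS.GoalsC

/-! # HS, packet IFN: invariant functions from invariant forms -/

open Complex Metric Set Filter Topology MeasureTheory
open scoped ContDiff ComplexConjugate ComplexOrder Manifold Matrix

namespace Pool.Agent.Helper70.HS

open Pool.Agent.Helper95.Lin Pool.Agent.Helper16.Abund Pool.Agent.Helper92.Orb
  Pool.Agent.Helper10.SP Pool.Agent.Helper95.RK Pool.Agent.Helper57.HS Pool.Agent.Helper15.HS

universe u v

/-- the transposed Jacobian matrix `J i p = ∂_i τ_p` -/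
noncomputable def Jt {n : ℕ} (L : Cn n →L[ℂ] Cn n) : Matrix (Fin n) (Fin n) ℂ :=
  Matrix.of fun i p => L (Pi.single i 1) p

theorem det_Jt {n : ℕ} (L : Cn n →L[ℂ] Cn n) : (Jt L).det = L.det := by
  have h : Jt L = (LinearMap.toMatrix' (L : Cn n →ₗ[ℂ] Cn n))ᵀ := by
    ext i p
    simp [Jt, LinearMap.toMatrix'_apply, Matrix.transpose_apply]
  rw [h, Matrix.det_transpose, LinearMap.det_toMatrix']

/-- the form of `hermi`-invariance in terms of matrices -/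
theorem form_mat {n : ℕ} (A B : Matrix (Fin n) (Fin n) ℂ) (L : Cn n →L[ℂ] Cn n)
    (h : ∀ u v, hermi B (L u) (L v) = hermi A u v) : A = Jt L * B * (Jt L)ᴴ := by
  ext i j
  have h1 := h (Pi.single i 1) (Pi.single j 1)
  have h2 : hermi A (Pi.single i 1) (Pi.single j 1) = A i j := by
    unfold hermi
    rw [Finset.sum_eq_single i, Finset.sum_eq_single j]
    · simp
    · intro b _ hb
      simp [Pi.single_eq_of_ne hb]
    · simp
    · intro b _ hb
      simp [Pi.single_eq_of_ne hb]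
    · simp
  rw [← h2, ← h1]
  unfold hermi
  rw [Matrix.mul_assoc, Matrix.mul_apply]
  refine Finset.sum_congr rfl fun p _ => ?_
  rw [Matrix.mul_apply, Finset.mul_sum]
  refine Finset.sum_congr rfl fun q _ => ?_
  simp only [Jt, Matrix.of_apply, Matrix.conjTranspose_apply, Complex.star_def]
  ring

theorem conj_arrow {n : ℕ} {J : Matrix (Fin n) (Fin n) ℂ} (hJ : J.det ≠ 0)
    (A : Matrix (Fin n) (Fin n) ℂ) :
    Matrix.trace (J * A * J⁻¹) = Matrix.trace A ∧ (J * A * J⁻¹).det = A.det ∧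
      J * A * J⁻¹ * (J * A * J⁻¹) = J * (A * A) * J⁻¹ := by
  have hu : IsUnit J.det := isUnit_iff_ne_zero.2 hJ
  refine ⟨?_, ?_, ?_⟩
  · rw [Matrix.trace_mul_comm, ← Matrix.mul_assoc, Matrix.nonsing_inv_mul _ hu, Matrix.one_mul]
  · rw [Matrix.det_mul, Matrix.det_mul, mul_right_comm, ← Matrix.det_mul,
      Matrix.mul_nonsing_inv _ hu, Matrix.det_one, one_mul]
  · calc J * A * J⁻¹ * (J * A * J⁻¹) = J * A * (J⁻¹ * J) * A * J⁻¹ := by
          simp only [Matrix.mul_assoc]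
      _ = _ := by rw [Matrix.nonsing_inv_mul _ hu, Matrix.mul_one]; simp only [Matrix.mul_assoc]

theorem ifn (hARRB : S_ARRB.{u}) : S_IFN.{u} := by
  intro n T G _ R hET H Y hH hY
  have key : ∀ γ x y, R γ x y → ∃ J : Matrix (Fin n) (Fin n) ℂ, J.det ≠ 0 ∧ Y x = J * Y y * Jᴴ ∧
      H x = J * H y * Jᴴ ∧ Y x * (H x)⁻¹ = J * (Y y * (H y)⁻¹) * J⁻¹ := by
    intro γ x y hxy
    obtain ⟨U, τ, σ, hxU, hUT, hLA, hτx, -, -, -⟩ := (hARRB T R hET).1 γ x y hxy
    have hArr : Arr R U τ := ⟨hLA.1, hLA.2.1, γ, hLA.2.2⟩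
    have hdet := ((hARRB T R hET).2.1 γ U τ hLA x hxU).1
    have hJ : (Jt (fderiv ℂ τ x)).det ≠ 0 := by rwa [det_Jt]
    have h1 := form_mat (Y x) (Y (τ x)) (fderiv ℂ τ x) (hY U τ hArr x hxU)
    have h2 := form_mat (H x) (H (τ x)) (fderiv ℂ τ x) (hH.inv U τ hArr x hxU)
    rw [hτx] at h1 h2
    refine ⟨Jt (fderiv ℂ τ x), hJ, h1, h2, ?_⟩
    set J := Jt (fderiv ℂ τ x) with hJdef
    have hJH : IsUnit (Jᴴ).det := by
      rw [Matrix.det_conjTranspose]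
      exact isUnit_iff_ne_zero.2 (star_ne_zero.2 hJ)
    rw [h1, h2, Matrix.mul_inv_rev, Matrix.mul_inv_rev]
    calc J * Y y * Jᴴ * (Jᴴ⁻¹ * ((H y)⁻¹ * J⁻¹)) = J * Y y * (Jᴴ * Jᴴ⁻¹) * ((H y)⁻¹ * J⁻¹) := by
          simp only [Matrix.mul_assoc]
      _ = _ := by rw [Matrix.mul_nonsing_inv _ hJH, Matrix.mul_one]; simp only [Matrix.mul_assoc]
  refine ⟨key, ?_⟩
  intro γ x y hxy
  obtain ⟨J, hJ, -, -, h⟩ := key γ x y hxy
  obtain ⟨c1, c2, c3⟩ := conj_arrow hJ (Y y * (H y)⁻¹)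
  refine ⟨by rw [h, c1], by rw [h, c2], ?_⟩
  rw [h, c3, (conj_arrow hJ _).1]

end Pool.Agent.Helper70.HS
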