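import Pool.Agent.Helper95.HS.GoalsA

/-! # HS, packet KETP -/

open Complex Metric Set Filter Topology MeasureTheory
open scoped ContDiff ComplexConjugate ComplexOrder Manifold Matrix

namespace Pool.Agent.Helper70.HS

open Pool.Agent.Helper95.Lin Pool.Agent.Helper16.Abund Pool.Agent.Helper10.SP
  Pool.Agent.Helper57.HS Pool.Agent.Helper95.HS

universe u v

theorem cd_congr_nhds {n : ℕ} {f g : Cn n → ℂ} {x : Cn n} (h : f =ᶠ[𝓝 x] g) (l : Fin n) :
    cd l f x = cd l g x := by
  unfold cd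
  rw [h.fderiv_eq]

theorem cdb_congr_nhds {n : ℕ} {f g : Cn n → ℂ} {x : Cn n} (h : f =ᶠ[𝓝 x] g) (l : Fin n) :
    cdb l f x = cdb l g x := by
  unfold cdb
  rw [h.fderiv_eq]

theorem LM_congr_nhds {n : ℕ} {f g : Cn n → ℝ} {x : Cn n} (h : f =ᶠ[𝓝 x] g) :
    LM f x = LM g x := by
  ext j k
  unfold LM
  simp only [Matrix.of_apply]
  refine cd_congr_nhds ?_ j
  have h2 := h.eventually_nhds
  filter_upwards [h2] with y hy
  refine cdb_congr_nhds ?_ k
  filter_upwards [hy] with z hz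
  rw [hz]

theorem hermi_add_mat {n : ℕ} (A B : Matrix (Fin n) (Fin n) ℂ) (u v : Cn n) :
    hermi (A + B) u v = hermi A u v + hermi B u v := by
  unfold hermi
  rw [← Finset.sum_add_distrib]
  refine Finset.sum_congr rfl fun i _ => ?_
  rw [← Finset.sum_add_distrib]
  refine Finset.sum_congr rfl fun j _ => ?_
  rw [Matrix.add_apply]
  ring

theorem cd_add_at {n : ℕ} {f g : Cn n → ℂ} {x : Cn n} (hf : DifferentiableAt ℝ f x)
    (hg : DifferentiableAt ℝ g x) (l : Fin n) :
    cd l (fun y => f y + g y) x = cd l f x + cd l g x := by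
  unfold cd
  rw [fderiv_fun_add hf hg]
  simp only [add_apply]
  ring

/-- the differential in terms of the basis -/
theorem fd_sum {n : ℕ} (L : Cn n →L[ℂ] Cn n) (u : Cn n) (p : Fin n) :
    L u p = ∑ j, u j * L (Pi.single j 1) p := by
  conv_lhs => rw [← Finset.univ_sum_single u]
  rw [map_sum, Finset.sum_apply]
  refine Finset.sum_congr rfl fun j _ => ?_
  have : (Pi.single j (u j) : Cn n) = u j • Pi.single j 1 := by
    rw [← Pi.single_smul, smul_eq_mul, mul_one]
  rw [this, map_smul, Pi.smul_apply, smul_eq_mul]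

theorem hermi_pull {n : ℕ} (A B : Matrix (Fin n) (Fin n) ℂ) (L : Cn n →L[ℂ] Cn n)
    (h : ∀ j k, A j k = ∑ p, ∑ q, L (Pi.single j 1) p * conj (L (Pi.single k 1) q) * B p q)
    (u v : Cn n) : hermi B (L u) (L v) = hermi A u v := by
  unfold hermi
  have e1 : ∀ p q, B p q * L u p * conj (L v q) = ∑ j, ∑ k, L (Pi.single j 1) p *
      conj (L (Pi.single k 1) q) * B p q * u j * conj (v k) := by
    intro p q
    rw [fd_sum L u p, fd_sum L v q, map_sum, mul_assoc, Finset.sum_mul_sum, Finset.mul_sum]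
    refine Finset.sum_congr rfl fun j _ => ?_
    rw [Finset.mul_sum]
    refine Finset.sum_congr rfl fun k _ => ?_
    rw [map_mul]
    ring
  simp only [e1, h, Finset.sum_mul]
  calc ∑ p, ∑ q, ∑ j, ∑ k, L (Pi.single j 1) p * conj (L (Pi.single k 1) q) * B p q * u j *
        conj (v k)
      = ∑ p, ∑ j, ∑ q, ∑ k, L (Pi.single j 1) p * conj (L (Pi.single k 1) q) * B p q * u j *
        conj (v k) := Finset.sum_congr rfl fun p _ => Finset.sum_comm
    _ = ∑ j, ∑ p, ∑ q, ∑ k, L (Pi.single j 1) p * conj (L (Pi.single k 1) q) * B p q * u j *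
        conj (v k) := Finset.sum_comm
    _ = ∑ j, ∑ p, ∑ k, ∑ q, L (Pi.single j 1) p * conj (L (Pi.single k 1) q) * B p q * u j *
        conj (v k) := Finset.sum_congr rfl fun j _ => Finset.sum_congr rfl fun p _ =>
          Finset.sum_comm
    _ = _ := Finset.sum_congr rfl fun j _ => Finset.sum_comm

theorem ketp (hLMF : S_LMF) (hWCH : S_WCH) (hDETI : S_DETI.{u}) (hARRB : S_ARRB.{u})
    (hPUE : S_PUE.{u}) (hLMID : S_LMID.{u}) : S_KETP.{u} := by
  intro n T G _ R hET
  have hT : IsOpen T := hET.isOpen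
  -- invariant functions and arrows
  have hinvLM : ∀ w : Cn n → ℝ, InvF T R w → InvH R (LM w) := by
    intro w hw U τ hτ x hx u v
    obtain ⟨hU, hd, γ, hγ⟩ := hτ
    have hmaps : MapsTo τ U T := fun y hy => (hET.mem _ _ _ (hγ y hy)).2
    have h1 := ((hWCH.1 T U hT hU τ hd hmaps).2 w hw.1 x hx).2
    have h2 : (w ∘ τ) =ᶠ[𝓝 x] w := by
      filter_upwards [hU.mem_nhds hx] with y hy
      exact hw.2 γ y (τ y) (hγ y hy)
    refine hermi_pull _ _ (fderiv ℂ τ x) ?_ u v
    intro j k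
    rw [← LM_congr_nhds h2]
    exact h1 j k
  have hdiffLM : ∀ w : Cn n → ℝ, InvF T R w → ∀ x ∈ T, ∀ i j,
      DifferentiableAt ℝ (fun y => LM w y i j) x := by
    intro w hw x hx i j
    exact (((hLMF T hT w hw.1).1 i j).contDiffAt (hT.mem_nhds hx)).differentiableAt (by simp)
  refine ⟨?_, ?_, ?_⟩
  · intro Y w hY hYi hw
    have hL := hLMF T hT w hw.1
    have hsm : ∀ i j, ContDiffOn ℝ ∞ (fun x => pert Y w x i j) T := by
      intro i j
      exact (hY.smooth i j).add (hL.1 i j)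
    have hcl : ∀ x ∈ T, ∀ i j l, cd l (fun y => pert Y w y i j) x =
        cd i (fun y => pert Y w y l j) x := by
      intro x hx i j l
      have hd : ∀ i j, DifferentiableAt ℝ (fun y => Y y i j) x := fun i j =>
        ((hY.smooth i j).contDiffAt (hT.mem_nhds hx)).differentiableAt (by simp)
      have e : ∀ i j l, cd l (fun y => pert Y w y i j) x =
          cd l (fun y => Y y i j) x + cd l (fun y => LM w y i j) x := fun i j l =>
        cd_add_at (hd i j) (hdiffLM w hw x hx i j) l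
      rw [e, e, hY.closed x hx i j l, (hL.2.2.2 x hx i j l).1]
    have hinv : InvH R (pert Y w) := by
      intro U τ hτ x hx u v
      unfold pert
      rw [hermi_add_mat, hermi_add_mat, hYi U τ hτ x hx u v, hinvLM w hw U τ hτ x hx u v]
    refine ⟨⟨hsm, ?_, hcl⟩, hinv, ?_⟩
    · intro x hx
      exact (hY.herm x hx).add (hL.2.1 x hx)
    · intro hpos
      exact ⟨hET, hpos, hsm, hcl, hinv⟩
  · intro H Q hH hQ
    refine ⟨⟨?_, ?_⟩, ⟨hH.smooth, fun x hx => (hH.posDef x hx).isHermitian, hH.closed⟩, hH.inv⟩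
    · have h1 := hDETI T R H hH
      have h2 := hDETI T R Q hQ
      unfold ld
      exact (h2.2.1.log fun x hx => (h2.1 x hx).2.1.ne').sub
        (h1.2.1.log fun x hx => (h1.1 x hx).2.1.ne')
    · intro γ x y hxy
      have h1 := hDETI T R H hH
      have h2 := hDETI T R Q hQ
      obtain ⟨U, τ, σ, hxU, hUT, hLA, hτx, -, -, -⟩ := (hARRB T R hET).1 γ x y hxy
      have hArr : Arr R U τ := ⟨hLA.1, hLA.2.1, γ, hLA.2.2⟩
      have hdet := ((hARRB T R hET).2.1 γ U τ hLA x hxU).1
      have hyT : y ∈ T := (hET.mem _ _ _ hxy).2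
      have a1 := (h1.2.2.2.2.1 U τ hArr x hxU).1
      have a2 := (h2.2.2.2.2.1 U τ hArr x hxU).1
      rw [hτx] at a1 a2
      have hn : (0 : ℝ) < ‖(fderiv ℂ τ x).det‖ ^ 2 := by positivity
      unfold ld
      simp only
      rw [a1, a2, Real.log_mul (h1.1 y hyT).2.1.ne' hn.ne',
        Real.log_mul (h2.1 y hyT).2.1.ne' hn.ne']
      ring
  · intro H w hH hw
    obtain ⟨κ, hκ⟩ := hPUE T R hET
    have hD : DInv R w := by
      intro U τ hτ x hx
      obtain ⟨hU, hd, γ, hγ⟩ := hτ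
      have h2 : (fun y => w (τ y)) =ᶠ[𝓝 x] w := by
        filter_upwards [hU.mem_nhds hx] with y hy
        exact hw.2 γ y (τ y) (hγ y hy)
      exact h2.fderiv_eq
    have h := hLMID T R H hH κ hκ w hw.1 hD
    exact ⟨h.2.1, h.1⟩

end Pool.Agent.Helper70.HS
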