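import Pool.Agent.Helper15.HS.GoalsC
import Pool.Agent.Helper11.RK.BZERO
import Pool.Agent.Helper70.HS.KETP

/-! # HS, packet VOLP: the volume polynomial -/

open Complex Metric Set Filter Topology MeasureTheory
open scoped ContDiff ComplexConjugate ComplexOrder Manifold Matrix

namespace Pool.Agent.Helper70.HS

open Pool.Agent.Helper95.Lin Pool.Agent.Helper16.Abund Pool.Agent.Helper92.Orb
  Pool.Agent.Helper10.SP Pool.Agent.Helper95.RK Pool.Agent.Helper57.HS Pool.Agent.Helper15.HS

universe u v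

theorem det_contDiffOn {n m : ℕ} {W : Set (Cn n)} {X : Cn n → Matrix (Fin m) (Fin m) ℂ}
    (hX : ∀ i j, ContDiffOn ℝ ∞ (fun x => X x i j) W) :
    ContDiffOn ℝ ∞ (fun x => (X x).det) W := by
  have h : (fun x => (X x).det) = fun x => ∑ σ : Equiv.Perm (Fin m),
      ((Equiv.Perm.sign σ : ℤ) : ℂ) * ∏ i, X x (σ i) i := by
    funext x
    rw [Matrix.det_apply']
  rw [h]
  exact ContDiffOn.sum fun σ _ => contDiffOn_const.mul (contDiffOn_prod fun i _ => hX (σ i) i)

/-- `s ↦ (det (A + s B)).re` is a polynomial of degree at most `n`. -/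
theorem det_re_poly {n : ℕ} (A B : Matrix (Fin n) (Fin n) ℂ) : ∃ r : Polynomial ℝ,
    r.degree < (n + 1 : ℕ) ∧ ∀ s : ℝ, (A + (s : ℂ) • B).det.re = r.eval s := by
  set D : Polynomial ℂ := Matrix.det ((Polynomial.X : Polynomial ℂ) • B.map Polynomial.C +
    A.map Polynomial.C) with hD
  have hdeg : D.natDegree < n + 1 := by
    have h := Polynomial.natDegree_det_X_add_C_le B A
    rw [Fintype.card_fin] at h
    exact Nat.lt_succ_of_le h
  refine ⟨∑ i ∈ Finset.range (n + 1), Polynomial.C (D.coeff i).re * Polynomial.X ^ i, ?_, ?_⟩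
  · refine (Polynomial.degree_sum_le _ _).trans_lt ?_
    rw [Finset.sup_lt_iff (WithBot.bot_lt_coe _)]
    intro i hi
    exact (Polynomial.degree_C_mul_X_pow_le i _).trans_lt
      (by exact_mod_cast Finset.mem_range.1 hi)
  · intro s
    have h1 : (A + (s : ℂ) • B).det = D.eval (s : ℂ) := by
      rw [hD, ← Polynomial.coe_evalRingHom, RingHom.map_det]
      congr 1
      ext i j
      simp only [Matrix.add_apply, Matrix.smul_apply, smul_eq_mul, RingHom.mapMatrix_apply,
        Matrix.map_apply, Polynomial.coe_evalRingHom, Polynomial.eval_add, Polynomial.eval_mul,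
        Polynomial.eval_X, Polynomial.eval_C]
      ring
    rw [h1, Polynomial.eval_eq_sum_range' hdeg, Complex.re_sum, Polynomial.eval_finsetSum]
    refine Finset.sum_congr rfl fun i _ => ?_
    rw [Polynomial.eval_mul, Polynomial.eval_C, Polynomial.eval_pow, Polynomial.eval_X,
      ← Complex.ofReal_pow, Complex.re_mul_ofReal]

/-- integrability against the partition function -/
theorem kap_int {n : ℕ} {T : Set (Cn n)} (hT : IsOpen T) {κ : Cn n → ℝ} (hκ : TestF T κ)
    {f : Cn n → ℝ} (hf : ContinuousOn f T) : IntegrableOn (fun x => κ x * f x) T := by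
  have hc : ContinuousOn (fun x => κ x * f x) (tsupport κ) :=
    hκ.1.continuous.continuousOn.mul (hf.mono hκ.2.2)
  have h1 := hc.integrableOn_compact (μ := (volume : Measure (Cn n))) hκ.2.1
  refine h1.of_forall_sdiff_eq_zero hT.measurableSet fun x hx => ?_
  rw [image_eq_zero_of_notMem_tsupport hx.2, zero_mul]

theorem int_poly {n : ℕ} {T : Set (Cn n)} (hT : IsOpen T) {κ : Cn n → ℝ} (hκ : TestF T κ)
    {A B : Cn n → Matrix (Fin n) (Fin n) ℂ} (hA : ∀ i j, ContDiffOn ℝ ∞ (fun x => A x i j) T)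
    (hB : ∀ i j, ContDiffOn ℝ ∞ (fun x => B x i j) T) : ∃ q : Polynomial ℝ,
    q.natDegree ≤ n ∧ ∀ s : ℝ, ∫ x in T, κ x * (A x + (s : ℂ) • B x).det.re = q.eval s := by
  set V : ℝ → ℝ := fun s => ∫ x in T, κ x * (A x + (s : ℂ) • B x).det.re with hV
  have hinj : Set.InjOn (fun i : ℕ => (i : ℝ)) (Finset.range (n + 1) : Finset ℕ) :=
    fun i _ j _ h => Nat.cast_injective (R := ℝ) h
  refine ⟨Lagrange.interpolate (Finset.range (n + 1)) (fun i : ℕ => (i : ℝ))
    (fun i => V i), ?_, ?_⟩
  · have h := Lagrange.degree_interpolate_lt (fun i : ℕ => V i) hinj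
    rw [Finset.card_range] at h
    rcases eq_or_ne (Lagrange.interpolate (Finset.range (n + 1)) (fun i : ℕ => (i : ℝ))
      (fun i => V i)) 0 with h0 | h0
    · rw [h0]
      simp
    · exact Nat.lt_succ_iff.1 ((Polynomial.natDegree_lt_iff_degree_lt h0).2 h)
  · intro s
    have hint : ∀ i : ℕ, IntegrableOn (fun x => κ x * (A x + ((i : ℝ) : ℂ) • B x).det.re) T := by
      intro i
      refine kap_int hT hκ ?_
      refine Complex.continuous_re.comp_continuousOn ?_
      refine (det_contDiffOn fun a b => ?_).continuousOn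
      simp only [Matrix.add_apply, Matrix.smul_apply, smul_eq_mul]
      exact (hA a b).add (contDiffOn_const.mul (hB a b))
    rw [Lagrange.interpolate_apply, Polynomial.eval_finsetSum]
    have h2 : ∀ x, κ x * (A x + (s : ℂ) • B x).det.re = ∑ i ∈ Finset.range (n + 1),
        κ x * (A x + ((i : ℝ) : ℂ) • B x).det.re *
          (Lagrange.basis (Finset.range (n + 1)) (fun i : ℕ => (i : ℝ)) i).eval s := by
      intro x
      obtain ⟨r, hr, hr2⟩ := det_re_poly (A x) (B x)
      have h3 := Lagrange.eq_interpolate (f := r) hinj (by rwa [Finset.card_range])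
      rw [hr2 s]
      conv_lhs => rw [h3]
      rw [Lagrange.interpolate_apply, Polynomial.eval_finsetSum, Finset.mul_sum]
      refine Finset.sum_congr rfl fun i _ => ?_
      rw [Polynomial.eval_mul, Polynomial.eval_C, hr2 i, mul_assoc]
    show ∫ x in T, κ x * (A x + (s : ℂ) • B x).det.re = _
    simp only [h2]
    rw [integral_finsetSum _ fun i _ => (hint i).mul_const _]
    refine Finset.sum_congr rfl fun i _ => ?_
    rw [integral_mul_const, Polynomial.eval_mul, Polynomial.eval_C]

theorem volp (hDETI : S_DETI.{u}) (hMOMG : S_MOMG.{u}) (hRHOI : S_RHOI.{u}) :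
    S_VOLP.{u} := by
  intro n T G _ R H hH κ hκ hex
  have hT : IsOpen T := hH.et.isOpen
  have hHer : HerT T R H := ⟨hH.posDef, hH.smooth, hH.inv⟩
  obtain ⟨hr1, hr2, hr3, hr4, hr5⟩ := hRHOI T R H hH.et hHer
  have part1 : ∀ (ε : ℝ) (Q : Cn n → Matrix (Fin n) (Fin n) ℂ), 0 < ε → TKE T R H ε Q →
      ∀ t : ℝ, 0 ≤ t →
      ∫ x in T, κ x * (Q x + (t : ℂ) • H x).det.re = VolP T κ H (ε + t) := by
    intro ε Q hε hQ t ht
    have hQH : HerT T R Q := ⟨hQ.ket.posDef, hQ.ket.smooth, hQ.ket.inv⟩
    obtain ⟨hw, hrw⟩ := hr5 Q hQH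
    have hZ : CHF (fun x => rho H x + ((ε + t : ℝ) : ℂ) • H x) T := by
      refine ⟨fun i j => ?_, fun x hx => ?_, fun x hx i j l => ?_⟩
      · simp only [Matrix.add_apply, Matrix.smul_apply, smul_eq_mul]
        exact (hr1.smooth i j).add (contDiffOn_const.mul (hH.smooth i j))
      · refine (hr1.herm x hx).add ?_
        refine IsSelfAdjoint.smul ?_ (hH.posDef x hx).isHermitian
        exact Complex.conj_ofReal _
      · have e : ∀ i j l, cd l (fun y => (rho H y + ((ε + t : ℝ) : ℂ) • H y) i j) x =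
            cd l (fun y => rho H y i j) x + ((ε + t : ℝ) : ℂ) * cd l (fun y => H y i j) x := by
          intro i j l
          have d1 : DifferentiableAt ℝ (fun y => rho H y i j) x :=
            ((hr1.smooth i j).contDiffAt (hT.mem_nhds hx)).differentiableAt (by simp)
          have d2 : DifferentiableAt ℝ (fun y => H y i j) x :=
            ((hH.smooth i j).contDiffAt (hT.mem_nhds hx)).differentiableAt (by simp)
          have e1 := cd_add_at d1 (d2.const_mul ((ε + t : ℝ) : ℂ)) l
          simp only [Matrix.add_apply, Matrix.smul_apply, smul_eq_mul]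
          rw [e1]
          congr 1
          unfold cd
          rw [fderiv_const_mul d2]
          simp only [FunLike.coe_smul, Pi.smul_apply, smul_eq_mul]
          ring
        rw [e, e, hr1.closed x hx i j l, hH.closed x hx i j l]
    have hZi : InvH R (fun x => rho H x + ((ε + t : ℝ) : ℂ) • H x) := by
      intro U τ hτ x hx u v
      have hs : ∀ (M : Matrix (Fin n) (Fin n) ℂ) (c : ℂ) (u v : Cn n),
          hermi (c • M) u v = c * hermi M u v := by
        intro M c u v
        unfold hermi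
        simp only [Matrix.smul_apply, smul_eq_mul, Finset.mul_sum]
        refine Finset.sum_congr rfl fun i _ => Finset.sum_congr rfl fun j _ => ?_
        ring
      simp only
      rw [hermi_add_mat, hermi_add_mat, hs, hs, hr2 U τ hτ x hx u v, hH.inv U τ hτ x hx u v]
    have h1 := hMOMG T R H hH κ hκ _ hZ hZi _ hw
    unfold VolP
    rw [← h1]
    refine setIntegral_congr_fun hT.measurableSet fun x hx => ?_
    have h2 : Q x + (t : ℂ) • H x = rho H x + ((ε + t : ℝ) : ℂ) • H x +
        LM (fun y => ld Q y - ld H y) x := by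
      have h3 := hQ.eq x hx
      rw [hrw x hx] at h3
      have h4 : Q x = rho H x + LM (fun y => ld Q y - ld H y) x + (ε : ℂ) • H x := by
        rw [h3]; abel
      rw [h4]
      push_cast
      rw [add_smul]
      abel
    show κ x * (Q x + (t : ℂ) • H x).det.re = _
    rw [h2]
  refine ⟨part1, ?_⟩
  obtain ⟨q, hq1, hq2⟩ := int_poly hT hκ.test hr1.smooth hH.smooth
  have hVq : ∀ s, VolP T κ H s = q.eval s := hq2
  -- positivity
  obtain ⟨x₀, hx₀⟩ := hH.et.nonempty
  obtain ⟨γ₀, y₀, hR₀, hy₀⟩ := Pool.Agent.Helper11.RK.exists_arrow hκ hx₀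
  have hy₀T : y₀ ∈ T := (hH.et.mem _ _ _ hR₀).2
  have hpos : ∀ s : ℝ, 0 < s → 0 < q.eval s := by
    intro s hs
    obtain ⟨Q, hQ⟩ := hex s hs
    have h1 := part1 s Q hs hQ 0 le_rfl
    rw [add_zero, hVq] at h1
    have hD := hDETI T R Q hQ.ket
    have h2 : ∫ x in T, κ x * (Q x + ((0 : ℝ) : ℂ) • H x).det.re =
        ∫ x in T, κ x * (Q x).det.re := by
      simp
    rw [h2] at h1
    have h3 : 0 ≤ ∫ x in T, κ x * (Q x).det.re :=
      setIntegral_nonneg hT.measurableSet fun x hx => mul_nonneg (hκ.nonneg x)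
        (hD.1 x hx).2.1.le
    rw [← h1]
    refine lt_of_le_of_ne h3 fun h4 => ?_
    have h5 := Pool.Agent.Helper11.RK.vanish hT hκ.test hκ.nonneg hD.2.1
      (fun x hx => (hD.1 x hx).2.1.le) h4.symm y₀ hy₀T hy₀
    exact (hD.1 y₀ hy₀T).2.1.ne' h5
  have hq0 : q ≠ 0 := by
    intro h
    have := hpos 1 one_pos
    rw [h] at this
    simp at this
  obtain ⟨p, hp1, hp2⟩ := Polynomial.exists_eq_pow_rootMultiplicity_mul_and_not_dvd q hq0 0
  set k := q.rootMultiplicity 0 with hk
  rw [Polynomial.C_0, sub_zero] at hp1 hp2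
  have hpe : p.eval 0 ≠ 0 := by
    intro h
    apply hp2
    rw [Polynomial.X_dvd_iff]
    rwa [← Polynomial.coeff_zero_eq_eval_zero] at h
  have hkn : k ≤ n := by
    refine le_trans ?_ hq1
    have hp0 : p ≠ 0 := by
      rintro rfl
      simp at hpe
    rw [hp1, Polynomial.natDegree_mul (pow_ne_zero _ Polynomial.X_ne_zero) hp0,
      Polynomial.natDegree_pow, Polynomial.natDegree_X]
    omega
  have hev : ∀ s, q.eval s = s ^ k * p.eval s := by
    intro s
    conv_lhs => rw [hp1]
    rw [Polynomial.eval_mul, Polynomial.eval_pow, Polynomial.eval_X]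
  refine ⟨k, p, hkn, ?_, fun s => by rw [hVq, hev]⟩
  refine lt_of_le_of_ne ?_ (Ne.symm hpe)
  have hc : Filter.Tendsto (fun s : ℝ => p.eval s) (𝓝[>] 0) (𝓝 (p.eval 0)) :=
    (p.continuous.tendsto 0).mono_left nhdsWithin_le_nhds
  refine ge_of_tendsto hc ?_
  filter_upwards [self_mem_nhdsWithin] with s hs
  have hs' : (0 : ℝ) < s := hs
  have := hpos s hs'
  rw [hev] at this
  exact (pos_of_mul_pos_right this (pow_nonneg hs'.le _)).le

end Pool.Agent.Helper70.HS
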