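import Pool.Agent.Helper70.HS.IFN
import Pool.Agent.Helper70.HS.KETP
import Pool.Agent.Helper27.RK.KES

/-! # HS, packet RHOI: the form `rho` -/

open Complex Metric Set Filter Topology MeasureTheory
open scoped ContDiff ComplexConjugate ComplexOrder Manifold Matrix

namespace Pool.Agent.Helper70.HS

open Pool.Agent.Helper95.Lin Pool.Agent.Helper16.Abund Pool.Agent.Helper92.Orb
  Pool.Agent.Helper10.SP Pool.Agent.Helper95.RK Pool.Agent.Helper57.HS Pool.Agent.Helper15.HS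

universe u v

theorem det_pos_re {n : ℕ} {A : Matrix (Fin n) (Fin n) ℂ} (h : A.PosDef) :
    0 < A.det.re ∧ A.det.im = 0 := by
  have h1 := h.det_pos
  rw [Complex.lt_def] at h1
  exact ⟨by simpa using h1.1, by simpa using h1.2.symm⟩

theorem rhoi (hWIRT : S_WIRT) (hWCH : S_WCH) (hLMF : S_LMF) (hARRB : S_ARRB.{u})
    (hMCAL : S_MCAL) : S_RHOI.{u} := by
  intro n T G _ R H hET hH
  have hT : IsOpen T := hET.isOpen
  have hsm : ∀ Q : Cn n → Matrix (Fin n) (Fin n) ℂ, HerT T R Q → ContDiffOn ℝ ∞ (ld Q) T :=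
    fun Q hQ => ((hMCAL T hT Q Q hQ.smooth hQ.smooth).2.2.2.2 hQ.posDef).1
  have hpot : ∀ Q : Cn n → Matrix (Fin n) (Fin n) ℂ, HerT T R Q → ∀ U τ, Arr R U τ → ∀ x ∈ U,
      ld Q x = ld Q (τ x) + Real.log (‖(fderiv ℂ τ x).det‖ ^ 2) := by
    intro Q hQ U τ hA x hx
    have hxT : x ∈ T := by
      obtain ⟨hU, hd, γ, hγ⟩ := hA
      exact (hET.mem _ _ _ (hγ x hx)).1
    have hyT : τ x ∈ T := by
      obtain ⟨hU, hd, γ, hγ⟩ := hA
      exact (hET.mem _ _ _ (hγ x hx)).2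
    have hdet : (fderiv ℂ τ x).det ≠ 0 := by
      obtain ⟨hU, hd, γ, hγ⟩ := hA
      exact ((hARRB T R hET).2.1 γ U τ ⟨hU, hd, hγ⟩ x hx).1
    have h1 := form_mat (Q x) (Q (τ x)) (fderiv ℂ τ x) (hQ.inv U τ hA x hx)
    have h2 : (Q x).det.re = (Q (τ x)).det.re * ‖(fderiv ℂ τ x).det‖ ^ 2 := by
      rw [h1, Matrix.det_mul, Matrix.det_mul, Matrix.det_conjTranspose, det_Jt]
      have h3 : (fderiv ℂ τ x).det * (Q (τ x)).det * star (fderiv ℂ τ x).det =
          (Q (τ x)).det * ((‖(fderiv ℂ τ x).det‖ ^ 2 : ℝ) : ℂ) := by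
        have h4 := Complex.mul_conj ((fderiv ℂ τ x).det)
        rw [Complex.normSq_eq_norm_sq] at h4
        rw [← h4, Complex.star_def]
        ring
      rw [h3, Complex.re_mul_ofReal]
    unfold ld
    rw [h2, Real.log_mul (det_pos_re (hQ.posDef _ hyT)).1.ne' (by positivity)]
  have hrho : ∀ Q : Cn n → Matrix (Fin n) (Fin n) ℂ, HerT T R Q → InvH R (rho Q) := by
    intro Q hQ
    exact Pool.Agent.Helper27.RK.lm_inv hWIRT hWCH hET (hsm Q hQ) (hpot Q hQ)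
  have hLM : ∀ w : Cn n → ℝ, ContDiffOn ℝ ∞ w T → CHF (LM w) T := by
    intro w hw
    have h := hLMF T hT w hw
    exact ⟨h.1, h.2.1, fun x hx i j l => (h.2.2.2 x hx i j l).1⟩
  refine ⟨hLM _ (hsm H hH), hrho H hH, hsm H hH, ?_, ?_⟩
  · intro w hw
    refine ⟨hLM w hw.1, ?_⟩
    intro U τ hτ x hx u v
    obtain ⟨hU, hd, γ, hγ⟩ := hτ
    have hmaps : MapsTo τ U T := fun y hy => (hET.mem _ _ _ (hγ y hy)).2
    have h1 := ((hWCH.1 T U hT hU τ hd hmaps).2 w hw.1 x hx).2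
    have h2 : (w ∘ τ) =ᶠ[𝓝 x] w := by
      filter_upwards [hU.mem_nhds hx] with y hy
      exact hw.2 γ y (τ y) (hγ y hy)
    refine hermi_pull _ _ (fderiv ℂ τ x) ?_ u v
    intro j k
    rw [← LM_congr_nhds h2]
    exact h1 j k
  · intro Q hQ
    have hs : ContDiffOn ℝ ∞ (fun x => ld Q x - ld H x) T := (hsm Q hQ).sub (hsm H hH)
    refine ⟨⟨hs, ?_⟩, ?_⟩
    · intro γ x y hxy
      obtain ⟨U, τ, σ, hxU, hUT, hLA, hτx, -, -, -⟩ := (hARRB T R hET).1 γ x y hxy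
      have hArr : Arr R U τ := ⟨hLA.1, hLA.2.1, γ, hLA.2.2⟩
      have e1 := hpot Q hQ U τ hArr x hxU
      have e2 := hpot H hH U τ hArr x hxU
      rw [hτx] at e1 e2
      simp only
      rw [e1, e2]
      ring
    · intro x hx
      have h := Pool.Agent.Helper62.SP.LM_add hWIRT hT (hsm H hH) hs hx
      unfold rho
      rw [← h]
      exact LM_congr_nhds (Filter.Eventually.of_forall fun y => by simp)

end Pool.Agent.Helper70.HS
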