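import Pool.Agent.Helper70.HS.IFN
import Pool.Agent.Helper45.HS.MatC
import Pool.Agent.Helper95.Lin.Basics

/-! # HS, packet INVK: the error terms are invariant and continuous -/

open Complex Metric Set Filter Topology MeasureTheory
open scoped ContDiff ComplexConjugate ComplexOrder Manifold Matrix

namespace Pool.Agent.Helper70.HS

open Pool.Agent.Helper95.Lin Pool.Agent.Helper16.Abund Pool.Agent.Helper92.Orb
  Pool.Agent.Helper10.SP Pool.Agent.Helper95.RK Pool.Agent.Helper57.HS Pool.Agent.Helper15.HS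
  Pool.Agent.Helper45.HS

universe u v

namespace Invk

variable {n : ℕ}

/-- The field of transposed Jacobian matrices. -/
noncomputable def JF (τ : Cn n → Cn n) (y : Cn n) : Matrix (Fin n) (Fin n) ℂ := Jt (fderiv ℂ τ y)

theorem JF_holo {U : Set (Cn n)} (hU : IsOpen U) {τ : Cn n → Cn n} (hτ : DifferentiableOn ℂ τ U)
    (i j : Fin n) : DifferentiableOn ℂ (fun y => JF τ y i j) U := by
  intro y hy
  have h2 : DifferentiableOn ℂ (fderiv ℂ τ) U := holo_fderiv hU hτ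
  have h4 := ((h2 y hy).clm_apply (differentiableWithinAt_const (Pi.single i (1 : ℂ))))
  exact (differentiableWithinAt_pi.1 h4) j

theorem JF_smM {U : Set (Cn n)} (hU : IsOpen U) {τ : Cn n → Cn n} (hτ : DifferentiableOn ℂ τ U) :
    SmM (JF τ) U := fun i j => holo_contDiffOn_real hU (JF_holo hU hτ i j)

theorem JF_cdb {U : Set (Cn n)} (hU : IsOpen U) {τ : Cn n → Cn n} (hτ : DifferentiableOn ℂ τ U)
    {x : Cn n} (hx : x ∈ U) (l : Fin n) : cdbM l (JF τ) x = 0 := by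
  ext i j
  have h := (Wirt.wirt U hU _ _ (JF_smM hU hτ i j) (JF_smM hU hτ i j)).2.2.2.2.2.2
    (JF_holo hU hτ i j) l x hx
  exact h

theorem JF_inv_cdb {U : Set (Cn n)} (hU : IsOpen U) {τ : Cn n → Cn n}
    (hτ : DifferentiableOn ℂ τ U) (hdet : ∀ y ∈ U, (JF τ y).det ≠ 0)
    {x : Cn n} (hx : x ∈ U) (l : Fin n) : cdbM l (fun y => (JF τ y)⁻¹) x = 0 := by
  rw [cdbM_inv hU hx (JF_smM hU hτ) hdet l, JF_cdb hU hτ hx l, Matrix.mul_zero, Matrix.zero_mul,
    neg_zero]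

theorem comp_cdM (hW : S_WCH) {T U : Set (Cn n)} (hT : IsOpen T) (hU : IsOpen U)
    {τ : Cn n → Cn n} (hτ : DifferentiableOn ℂ τ U) (hm : MapsTo τ U T)
    {X : Cn n → Matrix (Fin n) (Fin n) ℂ} (hX : SmM X T) {x : Cn n} (hx : x ∈ U) (k : Fin n) :
    cdM k (fun y => X (τ y)) x = ∑ p, JF τ x k p • cdM p X (τ x) ∧
    cdbM k (fun y => X (τ y)) x = ∑ p, conj (JF τ x k p) • cdbM p X (τ x) := by
  constructor
  · ext i j
    have h := ((hW.1 T U hT hU τ hτ hm).1 _ (hX i j) k x hx).1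
    simp only [Matrix.sum_apply, Matrix.smul_apply, smul_eq_mul]
    exact h
  · ext i j
    have h := ((hW.1 T U hT hU τ hτ hm).1 _ (hX i j) k x hx).2
    simp only [Matrix.sum_apply, Matrix.smul_apply, smul_eq_mul]
    exact h

theorem smM_comp {T U : Set (Cn n)} {τ : Cn n → Cn n}
    (hU : IsOpen U) (hτ : DifferentiableOn ℂ τ U) (hm : MapsTo τ U T)
    {X : Cn n → Matrix (Fin n) (Fin n) ℂ} (hX : SmM X T) : SmM (fun y => X (τ y)) U :=
  fun i j => (hX i j).comp (holo_contDiffOn_real hU hτ) hm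

theorem gam_smM {T : Set (Cn n)} (hT : IsOpen T) {H : Cn n → Matrix (Fin n) (Fin n) ℂ}
    (hH : SmM H T) (hp : ∀ x ∈ T, (H x).PosDef) (k : Fin n) : SmM (Gam H k) T :=
  (hH.cdM hT k).mul (hH.inv fun x hx => posDef_det (hp x hx))

theorem inv_trans {J H H' : Matrix (Fin n) (Fin n) ℂ} (h : H = J * H' * Jᴴ) :
    H⁻¹ = (Jᴴ)⁻¹ * H'⁻¹ * J⁻¹ := by
  rw [h, Matrix.mul_inv_rev, Matrix.mul_inv_rev]
  simp only [Matrix.mul_assoc]

theorem isUnit_H {J : Matrix (Fin n) (Fin n) ℂ} (h : J.det ≠ 0) : IsUnit (Jᴴ).det := by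
  rw [Matrix.det_conjTranspose]
  exact isUnit_iff_ne_zero.2 (star_ne_zero.2 h)

theorem pull_inv {J H H' : Matrix (Fin n) (Fin n) ℂ} (hJ : J.det ≠ 0) (h : H = J * H' * Jᴴ) :
    Jᴴ * H⁻¹ * J = H'⁻¹ := by
  rw [inv_trans h]
  calc Jᴴ * ((Jᴴ)⁻¹ * H'⁻¹ * J⁻¹) * J = (Jᴴ * (Jᴴ)⁻¹) * H'⁻¹ * (J⁻¹ * J) := by
        simp only [Matrix.mul_assoc]
    _ = _ := by
        rw [Matrix.mul_nonsing_inv _ (isUnit_H hJ), Matrix.nonsing_inv_mul _
          (isUnit_iff_ne_zero.2 hJ), Matrix.one_mul, Matrix.mul_one]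

/-- the transformation of the connection -/
theorem gam_trans (hW : S_WCH) {T U : Set (Cn n)} (hT : IsOpen T) (hU : IsOpen U)
    {τ : Cn n → Cn n} (hτ : DifferentiableOn ℂ τ U) (hm : MapsTo τ U T)
    (hdet : ∀ y ∈ U, (JF τ y).det ≠ 0)
    {H : Cn n → Matrix (Fin n) (Fin n) ℂ} (hH : SmM H T) (hp : ∀ x ∈ T, (H x).PosDef)
    (hinv : ∀ y ∈ U, H y = JF τ y * H (τ y) * (JF τ y)ᴴ) {x : Cn n} (hx : x ∈ U) (k : Fin n) :
    Gam H k x = cdM k (JF τ) x * (JF τ x)⁻¹ +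
      JF τ x * (∑ p, JF τ x k p • Gam H p (τ x)) * (JF τ x)⁻¹ := by
  have hJs := JF_smM hU hτ
  have hHs := smM_comp hU hτ hm hH
  have h1 : cdM k H x = (cdM k (JF τ) x * H (τ x) +
      JF τ x * ∑ p, JF τ x k p • cdM p H (τ x)) * (JF τ x)ᴴ := by
    rw [cdM_congr hU hx hinv k, cdM_mul hU hx (hJs.mul hHs) hJs.conjTranspose k,
      cdM_mul hU hx hJs hHs k, cdM_conjTranspose hU hx hJs k, JF_cdb hU hτ hx k,
      (comp_cdM hW hT hU hτ hm hH hx k).1]
    simp
  have h2 := inv_trans (hinv x hx)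
  have hu := isUnit_H (hdet x hx)
  have huH : IsUnit (H (τ x)).det := (posDef_det (hp _ (hm hx))).isUnit
  unfold Gam
  rw [h1, h2]
  have e1 : ∑ p, JF τ x k p • (cdM p H (τ x) * (H (τ x))⁻¹) =
      (∑ p, JF τ x k p • cdM p H (τ x)) * (H (τ x))⁻¹ := by
    rw [Finset.sum_mul]
    refine Finset.sum_congr rfl fun p _ => ?_
    rw [Matrix.smul_mul]
  rw [e1]
  calc (cdM k (JF τ) x * H (τ x) + JF τ x * ∑ p, JF τ x k p • cdM p H (τ x)) * (JF τ x)ᴴ *
        ((JF τ x)ᴴ⁻¹ * (H (τ x))⁻¹ * (JF τ x)⁻¹)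
      = (cdM k (JF τ) x * H (τ x) + JF τ x * ∑ p, JF τ x k p • cdM p H (τ x)) *
        ((JF τ x)ᴴ * (JF τ x)ᴴ⁻¹) * (H (τ x))⁻¹ * (JF τ x)⁻¹ := by
        simp only [Matrix.mul_assoc]
    _ = cdM k (JF τ) x * (H (τ x) * (H (τ x))⁻¹) * (JF τ x)⁻¹ +
        JF τ x * ((∑ p, JF τ x k p • cdM p H (τ x)) * (H (τ x))⁻¹) * (JF τ x)⁻¹ := by
        rw [Matrix.mul_nonsing_inv _ hu, Matrix.mul_one]
        simp only [Matrix.add_mul, Matrix.mul_assoc]
    _ = _ := by rw [Matrix.mul_nonsing_inv _ huH, Matrix.mul_one]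

/-- the transformation of the curvature -/
theorem crv_trans (hW : S_WCH) {T U : Set (Cn n)} (hT : IsOpen T) (hU : IsOpen U)
    {τ : Cn n → Cn n} (hτ : DifferentiableOn ℂ τ U) (hm : MapsTo τ U T)
    (hdet : ∀ y ∈ U, (JF τ y).det ≠ 0)
    {H : Cn n → Matrix (Fin n) (Fin n) ℂ} (hH : SmM H T) (hp : ∀ x ∈ T, (H x).PosDef)
    (hinv : ∀ y ∈ U, H y = JF τ y * H (τ y) * (JF τ y)ᴴ) {x : Cn n} (hx : x ∈ U)
    (k l : Fin n) :
    cdbM l (Gam H k) x * H x = JF τ x * (∑ p, ∑ q, (JF τ x k p * conj (JF τ x l q)) •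
      (cdbM q (Gam H p) (τ x) * H (τ x))) * (JF τ x)ᴴ := by
  have hJs := JF_smM hU hτ
  have hJi := hJs.inv hdet
  have hGs : ∀ p, SmM (fun y => Gam H p (τ y)) U := fun p =>
    smM_comp hU hτ hm (gam_smM hT hH hp p)
  have hS : SmM (fun y => ∑ p, JF τ y k p • Gam H p (τ y)) U :=
    SmM.sum _ fun p _ => SmM.smul (hJs k p) (hGs p)
  have h1 : cdbM l (Gam H k) x = JF τ x * (∑ p, ∑ q, (JF τ x k p * conj (JF τ x l q)) •
      cdbM q (Gam H p) (τ x)) * (JF τ x)⁻¹ := by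
    rw [cdbM_congr hU hx (fun y hy => gam_trans hW hT hU hτ hm hdet hH hp hinv hy k) l,
      cdbM_add hU hx ((hJs.cdM hU k).mul hJi) ((hJs.mul hS).mul hJi) l,
      cdbM_mul hU hx (hJs.cdM hU k) hJi l, cdbM_mul hU hx (hJs.mul hS) hJi l,
      cdbM_mul hU hx hJs hS l, JF_inv_cdb hU hτ hdet hx l, JF_cdb hU hτ hx l,
      ← cdM_cdbM hU hx hJs k l, cdM_congr hU hx (fun y hy => JF_cdb hU hτ hy l) k]
    have h2 : cdM k (fun _ : Cn n => (0 : Matrix (Fin n) (Fin n) ℂ)) x = 0 := cdM_const 0 k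
    rw [h2, cdbM_sum hU hx Finset.univ (fun p _ => SmM.smul (hJs k p) (hGs p)) l]
    simp only [Matrix.zero_mul, Matrix.mul_zero, zero_add, add_zero]
    congr 2
    refine Finset.sum_congr rfl fun p _ => ?_
    rw [cdbM_smul hU hx (hJs k p) (hGs p) l,
      (comp_cdM hW hT hU hτ hm (gam_smM hT hH hp p) hx l).2]
    have h3 : cdb l (fun y => JF τ y k p) x = 0 := congrFun (congrFun (JF_cdb hU hτ hx l) k) p
    rw [h3, zero_smul, zero_add, Finset.smul_sum]
    refine Finset.sum_congr rfl fun q _ => ?_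
    rw [smul_smul]
  rw [h1, hinv x hx]
  have e1 : ∑ p, ∑ q, (JF τ x k p * conj (JF τ x l q)) •
      (cdbM q (Gam H p) (τ x) * H (τ x)) = (∑ p, ∑ q, (JF τ x k p * conj (JF τ x l q)) •
      cdbM q (Gam H p) (τ x)) * H (τ x) := by
    rw [Finset.sum_mul]
    refine Finset.sum_congr rfl fun p _ => ?_
    rw [Finset.sum_mul]
    refine Finset.sum_congr rfl fun q _ => ?_
    rw [Matrix.smul_mul]
  rw [e1]
  set S := ∑ p, ∑ q, (JF τ x k p * conj (JF τ x l q)) • cdbM q (Gam H p) (τ x)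
  calc JF τ x * S * (JF τ x)⁻¹ * (JF τ x * H (τ x) * (JF τ x)ᴴ)
      = JF τ x * S * ((JF τ x)⁻¹ * JF τ x) * H (τ x) * (JF τ x)ᴴ := by
        simp only [Matrix.mul_assoc]
    _ = _ := by
        rw [Matrix.nonsing_inv_mul _ (isUnit_iff_ne_zero.2 (hdet x hx)), Matrix.mul_one]
        simp only [Matrix.mul_assoc]

theorem sum_trans {K K' J : Matrix (Fin n) (Fin n) ℂ} {F F' : Fin n → Fin n → ℂ}
    (hK : Jᴴ * K * J = K') (hF : ∀ k l, F k l = ∑ p, ∑ q, J k p * conj (J l q) * F' p q) :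
    ∑ k, ∑ l, K l k * F k l = ∑ p, ∑ q, K' q p * F' p q := by
  have e : ∀ p q, K' q p * F' p q = ∑ k, ∑ l, K l k * (J k p * conj (J l q) * F' p q) := by
    intro p q
    rw [← hK, Matrix.mul_apply, Finset.sum_mul]
    refine Finset.sum_congr rfl fun k _ => ?_
    rw [Matrix.mul_apply, Finset.sum_mul, Finset.sum_mul]
    refine Finset.sum_congr rfl fun l _ => ?_
    rw [Matrix.conjTranspose_apply, Complex.star_def]
    ring
  simp only [e, hF, Finset.mul_sum]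
  calc ∑ k, ∑ l, ∑ p, ∑ q, K l k * (J k p * conj (J l q) * F' p q)
      = ∑ k, ∑ p, ∑ l, ∑ q, K l k * (J k p * conj (J l q) * F' p q) :=
        Finset.sum_congr rfl fun k _ => Finset.sum_comm
    _ = ∑ p, ∑ k, ∑ l, ∑ q, K l k * (J k p * conj (J l q) * F' p q) := Finset.sum_comm
    _ = ∑ p, ∑ k, ∑ q, ∑ l, K l k * (J k p * conj (J l q) * F' p q) :=
        Finset.sum_congr rfl fun p _ => Finset.sum_congr rfl fun k _ => Finset.sum_comm
    _ = _ := Finset.sum_congr rfl fun p _ => Finset.sum_comm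

theorem crvP_eq {H : Cn n → Matrix (Fin n) (Fin n) ℂ} {x : Cn n}
    (h : ∀ i j k l, crv H x i j k l = - (cdbM l (Gam H k) x * H x) i j)
    (K : Matrix (Fin n) (Fin n) ℂ) :
    crvP H K K x = ∑ k, ∑ l, K l k * (- Matrix.trace (K * (cdbM l (Gam H k) x * H x))) := by
  unfold crvP
  calc ∑ i, ∑ j, ∑ k, ∑ l, K j i * K l k * crv H x i j k l
      = ∑ i, ∑ k, ∑ j, ∑ l, K j i * K l k * crv H x i j k l :=
        Finset.sum_congr rfl fun i _ => Finset.sum_comm
    _ = ∑ k, ∑ i, ∑ j, ∑ l, K j i * K l k * crv H x i j k l := Finset.sum_comm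
    _ = ∑ k, ∑ i, ∑ l, ∑ j, K j i * K l k * crv H x i j k l :=
        Finset.sum_congr rfl fun k _ => Finset.sum_congr rfl fun i _ => Finset.sum_comm
    _ = ∑ k, ∑ l, ∑ i, ∑ j, K j i * K l k * crv H x i j k l :=
        Finset.sum_congr rfl fun k _ => Finset.sum_comm
    _ = _ := by
        refine Finset.sum_congr rfl fun k _ => Finset.sum_congr rfl fun l _ => ?_
        rw [Finset.sum_comm]
        rw [Matrix.trace, ← Finset.sum_neg_distrib, Finset.mul_sum]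
        refine Finset.sum_congr rfl fun j _ => ?_
        rw [Matrix.diag_apply, Matrix.mul_apply, ← Finset.sum_neg_distrib, Finset.mul_sum]
        refine Finset.sum_congr rfl fun i _ => ?_
        rw [h i j k l]
        ring

theorem cont_crv {T : Set (Cn n)} (hT : IsOpen T) {H : Cn n → Matrix (Fin n) (Fin n) ℂ}
    (hH : SmM H T) (hp : ∀ x ∈ T, (H x).PosDef) (i j k l : Fin n) :
    ContinuousOn (fun x => crv H x i j k l) T := by
  unfold crv
  have h1 : ContDiffOn ℝ ∞ (fun x => cd k (cdb l fun y => H y i j) x) T :=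
    (hH.cdbM hT l).cdM hT k i j
  have h2 := (((hH.cdM hT k).mul (hH.inv fun x hx => posDef_det (hp x hx))).mul
    (hH.cdbM hT l)) i j
  exact (h1.neg.add h2).continuousOn

end Invk

open Invk in
theorem invk (hWCH : S_WCH) (hARRB : S_ARRB.{u}) (hCSY : S_CSY) : S_INVK.{u} := by
  intro n T G _ R hET H Q hH hQ
  have hT : IsOpen T := hET.isOpen
  have hHs : SmM H T := hH.smooth
  have hQs : SmM Q T := hQ.smooth
  have hQi : SmM (fun x => (Q x)⁻¹) T := hQs.inv fun x hx => posDef_det (hQ.posDef x hx)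
  have hc := cont_crv hT hHs hH.posDef
  refine ⟨?_, ?_, ?_, hc⟩
  · unfold KKt crvP
    refine Complex.continuous_re.comp_continuousOn ?_
    refine continuousOn_finsetSum _ fun i _ => continuousOn_finsetSum _ fun j _ =>
      continuousOn_finsetSum _ fun k _ => continuousOn_finsetSum _ fun l _ => ?_
    exact ((hQi j i).continuousOn.mul (hQi l k).continuousOn).mul (hc i j k l)
  · unfold AAt
    refine Complex.continuous_re.comp_continuousOn ?_
    refine continuousOn_finsetSum _ fun k _ => continuousOn_finsetSum _ fun l _ => ?_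
    have hA : ∀ k, SmM (Adf H Q k) T := fun k =>
      (gam_smM hT hQs hQ.posDef k).sub (gam_smM hT hHs hH.posDef k)
    exact (hQi l k).continuousOn.mul
      ((((hA k).mul hHs).mul (hA l).conjTranspose).mul hQi).trace.continuousOn
  · intro γ x y hxy
    obtain ⟨U, τ, σ, hxU, hUT, hLA, hτx, -, -, -⟩ := (hARRB T R hET).1 γ x y hxy
    have hU : IsOpen U := hLA.1
    have hτ : DifferentiableOn ℂ τ U := hLA.2.1
    have hArr : Arr R U τ := ⟨hLA.1, hLA.2.1, γ, hLA.2.2⟩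
    have hm : MapsTo τ U T := fun z hz => (hET.mem _ _ _ (hLA.2.2 z hz)).2
    have hdet : ∀ z ∈ U, (JF τ z).det ≠ 0 := by
      intro z hz
      unfold JF
      rw [det_Jt]
      exact ((hARRB T R hET).2.1 γ U τ hLA z hz).1
    have iH : ∀ z ∈ U, H z = JF τ z * H (τ z) * (JF τ z)ᴴ := fun z hz =>
      form_mat (H z) (H (τ z)) (fderiv ℂ τ z) (hH.inv U τ hArr z hz)
    have iQ : ∀ z ∈ U, Q z = JF τ z * Q (τ z) * (JF τ z)ᴴ := fun z hz =>
      form_mat (Q z) (Q (τ z)) (fderiv ℂ τ z) (hQ.inv U τ hArr z hz)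
    have hJ := hdet x hxU
    have hJu : IsUnit (JF τ x).det := isUnit_iff_ne_zero.2 hJ
    have hJHu := isUnit_H hJ
    have hyT : y ∈ T := (hET.mem _ _ _ hxy).2
    have hxT : x ∈ T := hUT hxU
    have iHx := iH x hxU
    have iQx := iQ x hxU
    rw [hτx] at iHx iQx
    have hK := pull_inv hJ iQx
    have hKx := inv_trans iQx
    constructor
    · unfold KKt
      rw [crvP_eq (fun i j k l => (hCSY T hT H hH.posDef hH.smooth y hyT).1 i j k l),
        crvP_eq (fun i j k l => (hCSY T hT H hH.posDef hH.smooth x hxT).1 i j k l)]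
      congr 1
      symm
      refine sum_trans hK fun k l => ?_
      have h1 := crv_trans hWCH hT hU hτ hm hdet hHs hH.posDef iH hxU k l
      rw [hτx] at h1
      rw [h1, hKx]
      have h2 : Matrix.trace ((JF τ x)ᴴ⁻¹ * (Q y)⁻¹ * (JF τ x)⁻¹ *
          (JF τ x * (∑ p, ∑ q, (JF τ x k p * conj (JF τ x l q)) •
            (cdbM q (Gam H p) y * H y)) * (JF τ x)ᴴ)) =
          Matrix.trace ((Q y)⁻¹ * (∑ p, ∑ q, (JF τ x k p * conj (JF τ x l q)) •
            (cdbM q (Gam H p) y * H y))) := by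
        calc _ = Matrix.trace ((JF τ x)ᴴ⁻¹ * ((Q y)⁻¹ * ((JF τ x)⁻¹ * JF τ x) *
              (∑ p, ∑ q, (JF τ x k p * conj (JF τ x l q)) •
              (cdbM q (Gam H p) y * H y)) * (JF τ x)ᴴ)) := by
              simp only [Matrix.mul_assoc]
          _ = Matrix.trace ((Q y)⁻¹ * (∑ p, ∑ q, (JF τ x k p * conj (JF τ x l q)) •
              (cdbM q (Gam H p) y * H y)) * ((JF τ x)ᴴ * (JF τ x)ᴴ⁻¹)) := by
              rw [Matrix.trace_mul_comm, Matrix.nonsing_inv_mul _ hJu, Matrix.mul_one]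
              simp only [Matrix.mul_assoc]
          _ = _ := by rw [Matrix.mul_nonsing_inv _ hJHu, Matrix.mul_one]
      rw [h2, Matrix.mul_sum, Matrix.trace_sum, ← Finset.sum_neg_distrib]
      refine Finset.sum_congr rfl fun p _ => ?_
      rw [Matrix.mul_sum, Matrix.trace_sum, ← Finset.sum_neg_distrib]
      refine Finset.sum_congr rfl fun q _ => ?_
      rw [Matrix.mul_smul, Matrix.trace_smul, smul_eq_mul]
      ring
    · unfold AAt
      congr 1
      symm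
      refine sum_trans hK fun k l => ?_
      have hA : ∀ k, Adf H Q k x = JF τ x * (∑ p, JF τ x k p • Adf H Q p y) * (JF τ x)⁻¹ := by
        intro k
        have g1 := gam_trans hWCH hT hU hτ hm hdet hHs hH.posDef iH hxU k
        have g2 := gam_trans hWCH hT hU hτ hm hdet hQs hQ.posDef iQ hxU k
        rw [hτx] at g1 g2
        unfold Adf
        rw [g1, g2]
        simp only [smul_sub, Finset.sum_sub_distrib, Matrix.mul_sub, Matrix.sub_mul]
        abel
      rw [hA k, hA l, hKx, iHx, Matrix.conjTranspose_mul, Matrix.conjTranspose_mul]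
      have hinvH : ((JF τ x)⁻¹)ᴴ = ((JF τ x)ᴴ)⁻¹ := Matrix.conjTranspose_nonsing_inv _
      rw [hinvH]
      set Bk := ∑ p, JF τ x k p • Adf H Q p y with hBk
      set Bl := ∑ p, JF τ x l p • Adf H Q p y with hBl
      have h2 : JF τ x * Bk * (JF τ x)⁻¹ * (JF τ x * H y * (JF τ x)ᴴ) *
          ((JF τ x)ᴴ⁻¹ * (Blᴴ * (JF τ x)ᴴ)) * ((JF τ x)ᴴ⁻¹ * (Q y)⁻¹ * (JF τ x)⁻¹) =
          JF τ x * (Bk * H y * Blᴴ * (Q y)⁻¹) * (JF τ x)⁻¹ := by
        calc _ = JF τ x * Bk * ((JF τ x)⁻¹ * JF τ x) * H y * ((JF τ x)ᴴ * (JF τ x)ᴴ⁻¹) * Blᴴ *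
              ((JF τ x)ᴴ * (JF τ x)ᴴ⁻¹) * (Q y)⁻¹ * (JF τ x)⁻¹ := by
              simp only [Matrix.mul_assoc]
          _ = _ := by
              rw [Matrix.mul_nonsing_inv _ hJHu, Matrix.nonsing_inv_mul _ hJu]
              simp only [Matrix.mul_one, Matrix.mul_assoc]
      rw [h2, (conj_arrow hJ _).1, hBk, hBl, Matrix.sum_mul, Matrix.sum_mul, Matrix.sum_mul,
        Matrix.trace_sum]
      refine Finset.sum_congr rfl fun p _ => ?_
      rw [Matrix.conjTranspose_sum, Matrix.mul_sum, Matrix.sum_mul, Matrix.trace_sum]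
      refine Finset.sum_congr rfl fun q _ => ?_
      rw [Matrix.conjTranspose_smul, Matrix.smul_mul, Matrix.smul_mul, Matrix.mul_smul,
        Matrix.smul_mul, Matrix.trace_smul, Matrix.smul_mul, Matrix.trace_smul,
        smul_eq_mul, smul_eq_mul, Complex.star_def]
      ring

end Pool.Agent.Helper70.HS
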